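import Mathlib
import Pool.Agent.G476.Wil.Core
import Pool.Agent.G476.Wil.Gap

set_option autoImplicit false

/-!
# Wilson primes of different orders

A prime `p ≥ n ≥ 1` is a Wilson prime of order `n` if `p ^ 2` divides
`(n - 1)! (p - n)! - (-1) ^ n`; the order `1` gives the Wilson primes. If `p` has the two orders
`m < n`, then `p` divides the numerator of `1 / m + ⋯ + 1 / (n - 1)`. Hence

* fewer than `n - m` primes are Wilson primes of both orders `m < n`;
* for all orders `n ≥ 1` but at most one there are infinitely many primes which are not Wilson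
  primes of order `n`; if almost all primes were Wilson primes, there would be only finitely many
  Wilson primes of each order `n ≥ 2`;
* the sum over all orders `n ≥ 1` of the lower densities, relative to the primes, of the Wilson
  primes of order `n` is at most `1`;
* a prime `p` is a Wilson prime of at most `3 N ^ (2 / 3)` of any `N ≤ p` consecutive orders, and on
  average over the orders `n ≤ N` at most `3 N ^ (- 1 / 3) π(x)` primes up to `x` are Wilson primes
  of order `n`, for all `N` and `x`.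
-/

open Filter
open scoped Nat

namespace Pool.Agent.Results.MP_de5eaa_nt.OrdersAlmostDisjoint

/-- `p` is a Wilson prime of order `n`. -/
def WilsonPrime (n p : ℕ) : Prop :=
  p.Prime ∧ n ≤ p ∧ (p : ℤ) ^ 2 ∣ ((n - 1)! : ℤ) * ((p - n)! : ℤ) - (-1) ^ n

/-- The number of the Wilson primes of order `n` which are at most `x`. -/
noncomputable def count (n x : ℕ) : ℕ := {p | p ≤ x ∧ WilsonPrime n p}.ncard

/-- The lower density of the Wilson primes of order `n`, relative to all primes. -/
noncomputable def lowerDensity (n : ℕ) : ℝ :=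
  liminf (fun x : ℕ => (count n x : ℝ) / (Nat.primeCounting x : ℝ)) atTop

theorem wilsonPrime_one (p : ℕ) : WilsonPrime 1 p ↔ p.Prime ∧ p ^ 2 ∣ (p - 1)! + 1 := by
  constructor
  · rintro ⟨h1, -, h2⟩
    refine ⟨h1, ?_⟩
    simp only [Nat.sub_self, Nat.factorial_zero, Nat.cast_one, one_mul, pow_one, sub_neg_eq_add]
      at h2
    exact_mod_cast h2
  · rintro ⟨h1, h2⟩
    refine ⟨h1, h1.one_lt.le, ?_⟩
    simp only [Nat.sub_self, Nat.factorial_zero, Nat.cast_one, one_mul, pow_one, sub_neg_eq_add]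
    exact_mod_cast h2

theorem two_orders {m n : ℕ} (hm : 1 ≤ m) (hmn : m < n) :
    {p | WilsonPrime m p ∧ WilsonPrime n p}.Finite ∧
      {p | WilsonPrime m p ∧ WilsonPrime n p}.ncard < n - m := by
  obtain ⟨k, rfl⟩ : ∃ k, n = m + k := ⟨n - m, by omega⟩
  have hk : 1 ≤ k := by omega
  have hE := G476.Wil.E_pos hm hk
  have hElt := G476.Wil.E_lt hm k
  have key : ∀ A : Finset ℕ, (A : Set ℕ) ⊆ {p | WilsonPrime m p ∧ WilsonPrime (m + k) p} →
      A.card < k := by
    intro A hA
    have h1 : ∏ p ∈ A, p ∣ G476.Wil.E m k :=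
      Finset.prod_primes_dvd _ (fun p hp => (hA hp).1.1.prime) fun p hp =>
        G476.Wil.dvd_of_two hm (hA hp).1 (hA hp).2
    have h2 : (m + k) ^ A.card ≤ ∏ p ∈ A, p :=
      Finset.pow_card_le_prod _ _ _ fun p hp => (hA hp).2.2.1
    have h3 : (m + k) ^ A.card < (m + k) ^ k :=
      (h2.trans (Nat.le_of_dvd hE h1)).trans_lt hElt
    exact (Nat.pow_lt_pow_iff_right (by omega)).1 h3
  have hfin : {p | WilsonPrime m p ∧ WilsonPrime (m + k) p}.Finite := by
    by_contra hinf
    obtain ⟨A, hA, hAc⟩ := Set.Infinite.exists_subset_card_eq hinf k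
    have := key A hA
    omega
  refine ⟨hfin, ?_⟩
  rw [Set.ncard_eq_toFinset_card _ hfin, show m + k - m = k by omega]
  exact key _ (by rw [hfin.coe_toFinset])

theorem count_eq (n x : ℕ) [DecidablePred (WilsonPrime n)] :
    count n x = ((Finset.range (x + 1)).filter (WilsonPrime n)).card := by
  unfold count
  rw [← Set.ncard_coe_finset]
  congr 1
  ext p
  simp

theorem primeCounting_eq (x : ℕ) :
    Nat.primeCounting x = ((Finset.range (x + 1)).filter Nat.Prime).card := by
  rw [Nat.primeCounting, Nat.primeCounting', Nat.count_eq_card_filter_range]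

theorem count_le (n x : ℕ) : count n x ≤ Nat.primeCounting x := by
  classical
  rw [count_eq, primeCounting_eq]
  refine Finset.card_le_card fun p hp => ?_
  rw [Finset.mem_filter] at hp ⊢
  exact ⟨hp.1, hp.2.1⟩

theorem count_sum (F : Finset ℕ) (hF : ∀ n ∈ F, 1 ≤ n) :
    ∃ B : ℕ, ∀ x : ℕ, ∑ n ∈ F, count n x ≤ Nat.primeCounting x + B := by
  classical
  have hfin : (⋃ m ∈ F, ⋃ n ∈ F, {p | m < n ∧ WilsonPrime m p ∧ WilsonPrime n p}).Finite := by
    refine F.finite_toSet.biUnion fun m hm => F.finite_toSet.biUnion fun n hn => ?_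
    by_cases hmn : m < n
    · exact (two_orders (hF m hm) hmn).1.subset fun p hp => hp.2
    · exact Set.finite_empty.subset fun p hp => hmn hp.1
  refine ⟨F.card * hfin.toFinset.card, fun x => ?_⟩
  have e1 : ∀ n, count n x = ((Finset.range (x + 1)).filter (WilsonPrime n)).card := fun n =>
    count_eq n x
  have e2 : ∑ n ∈ F, count n x =
      ∑ p ∈ Finset.range (x + 1), (F.filter fun n => WilsonPrime n p).card := by
    simp only [e1, Finset.card_filter]
    exact Finset.sum_comm
  have e3 : Nat.primeCounting x = ∑ p ∈ Finset.range (x + 1), if p.Prime then 1 else 0 := by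
    rw [primeCounting_eq, Finset.card_filter]
  have e4 : F.card * hfin.toFinset.card ≥
      ∑ p ∈ Finset.range (x + 1), if p ∈ hfin.toFinset then F.card else 0 := by
    rw [← Finset.sum_filter, Finset.sum_const, smul_eq_mul, mul_comm]
    exact Nat.mul_le_mul_right _ (Finset.card_le_card
      (s := (Finset.range (x + 1)).filter fun p => p ∈ hfin.toFinset) (t := hfin.toFinset)
      fun p hp => (Finset.mem_filter.1 hp).2)
  rw [e2, e3]
  refine le_trans ?_ (Nat.add_le_add_left e4 _)
  rw [← Finset.sum_add_distrib]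
  refine Finset.sum_le_sum fun p _ => ?_
  by_cases hp : p.Prime
  · by_cases hpB : p ∈ hfin.toFinset
    · rw [if_pos hpB]
      exact (Finset.card_filter_le _ _).trans (Nat.le_add_left _ _)
    · rw [if_neg hpB, if_pos hp, add_zero, Finset.card_le_one]
      intro m hm n hn
      rw [Finset.mem_filter] at hm hn
      by_contra hne
      apply hpB
      rw [hfin.mem_toFinset]
      simp only [Set.mem_iUnion, Set.mem_ofPred_eq]
      rcases lt_or_gt_of_ne hne with h | h
      · exact ⟨m, hm.1, n, hn.1, h, hm.2, hn.2⟩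
      · exact ⟨n, hn.1, m, hm.1, h, hn.2, hm.2⟩
  · have : F.filter (fun n => WilsonPrime n p) = ∅ := by
      rw [Finset.filter_eq_empty_iff]
      intro n _ h
      exact hp h.1
    rw [this, Finset.card_empty]
    exact Nat.zero_le _

theorem sum_density (F : Finset ℕ) (hF : ∀ n ∈ F, 1 ≤ n) : ∑ n ∈ F, lowerDensity n ≤ 1 := by
  by_contra hcon
  rw [not_le] at hcon
  obtain ⟨B, hB⟩ := count_sum F hF
  have hne : F.Nonempty := by
    rw [Finset.nonempty_iff_ne_empty]
    rintro rfl
    simp at hcon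
    linarith
  have hc0 : (0 : ℝ) < F.card := by exact_mod_cast hne.card_pos
  set δ : ℝ := (∑ n ∈ F, lowerDensity n - 1) / (2 * F.card) with hδ
  have hδ0 : 0 < δ := div_pos (by linarith) (by positivity)
  have h1 : ∀ n ∈ F, ∀ᶠ x : ℕ in atTop,
      lowerDensity n - δ < (count n x : ℝ) / (Nat.primeCounting x : ℝ) := by
    intro n _
    refine eventually_lt_of_lt_liminf (by
      show lowerDensity n - δ < lowerDensity n
      linarith) ?_
    exact isBoundedUnder_of ⟨0, fun x => by positivity⟩
  have h2 : ∀ᶠ x : ℕ in atTop, ∀ n ∈ F,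
      lowerDensity n - δ < (count n x : ℝ) / (Nat.primeCounting x : ℝ) :=
    (Filter.eventually_all_finset F).2 h1
  have h3 : ∀ᶠ x : ℕ in atTop, (B : ℝ) / (F.card * δ) < Nat.primeCounting x :=
    (tendsto_natCast_atTop_atTop.comp Nat.tendsto_primeCounting).eventually_gt_atTop _
  have h4 : ∀ᶠ x : ℕ in atTop, (0 : ℝ) < Nat.primeCounting x :=
    (tendsto_natCast_atTop_atTop.comp Nat.tendsto_primeCounting).eventually_gt_atTop _
  obtain ⟨x, h5, h6, h7⟩ := (h2.and (h3.and h4)).exists
  have h8 : ∑ n ∈ F, (lowerDensity n - δ) * Nat.primeCounting x ≤ ∑ n ∈ F, (count n x : ℝ) := by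
    refine Finset.sum_le_sum fun n hn => ?_
    have := h5 n hn
    rw [lt_div_iff₀ h7] at this
    exact this.le
  have h9 : ∑ n ∈ F, (count n x : ℝ) ≤ Nat.primeCounting x + B := by exact_mod_cast hB x
  rw [← Finset.sum_mul, Finset.sum_sub_distrib, Finset.sum_const, nsmul_eq_mul] at h8
  have h10 : ∑ n ∈ F, lowerDensity n = 1 + 2 * (F.card * δ) := by
    have e5 : ∀ a c : ℝ, 0 < c → c * ((a - 1) / (2 * c)) = (a - 1) / 2 := by
      intro a c hc
      field_simp
    rw [hδ, e5 _ _ hc0]
    ring
  rw [h10] at h8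
  rw [div_lt_iff₀ (mul_pos hc0 hδ0)] at h6
  have h11 : (1 + 2 * ((F.card : ℝ) * δ) - F.card * δ) * (Nat.primeCounting x : ℝ) =
      Nat.primeCounting x + Nat.primeCounting x * (F.card * δ) := by ring
  rw [h11] at h8
  linarith

/-- A prime is a Wilson prime of few orders. -/
theorem few_orders {p : ℕ} (hp : p.Prime) {a N : ℕ} (ha : 1 ≤ a) (hN : N ≤ p) :
    ({n | a ≤ n ∧ n < a + N ∧ WilsonPrime n p}.ncard : ℝ) ≤ 3 * (N : ℝ) ^ ((2 : ℝ) / 3) := by
  classical
  have : Fact p.Prime := ⟨hp⟩
  have h := G476.Wil.card_le_pow p hN ((Finset.Ico a (a + N)).filter fun n => WilsonPrime n p)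
    (Finset.filter_subset _ _) (fun m hm k _ hmk =>
      G476.Wil.dvd_of_two (ha.trans (Finset.mem_Ico.1 (Finset.mem_filter.1 hm).1).1)
        (Finset.mem_filter.1 hm).2 (Finset.mem_filter.1 hmk).2)
  have e : {n | a ≤ n ∧ n < a + N ∧ WilsonPrime n p} =
      (((Finset.Ico a (a + N)).filter fun n => WilsonPrime n p : Finset ℕ) : Set ℕ) := by
    ext n
    simp [and_assoc]
  rw [e, Set.ncard_coe_finset]
  exact h

/-- The average over the orders. -/
theorem average (N x : ℕ) :
    (∑ n ∈ Finset.Icc 1 N, count n x : ℝ) ≤ 3 * (N : ℝ) ^ ((2 : ℝ) / 3) * Nat.primeCounting x := by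
  classical
  have e1 : ∀ n, count n x = ((Finset.range (x + 1)).filter (WilsonPrime n)).card := fun n =>
    count_eq n x
  have e2 : ∑ n ∈ Finset.Icc 1 N, count n x =
      ∑ p ∈ Finset.range (x + 1), ((Finset.Icc 1 N).filter fun n => WilsonPrime n p).card := by
    simp only [e1, Finset.card_filter]
    exact Finset.sum_comm
  have e3 : (Nat.primeCounting x : ℝ) =
      ∑ p ∈ Finset.range (x + 1), if p.Prime then (1 : ℝ) else 0 := by
    rw [primeCounting_eq, Finset.card_filter]
    push_cast
    rfl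
  have e4 : (∑ n ∈ Finset.Icc 1 N, count n x : ℝ) =
      ∑ p ∈ Finset.range (x + 1),
        (((Finset.Icc 1 N).filter fun n => WilsonPrime n p).card : ℝ) := by
    exact_mod_cast e2
  rw [e4, e3, Finset.mul_sum]
  refine Finset.sum_le_sum fun p _ => ?_
  by_cases hp : p.Prime
  · rw [if_pos hp, mul_one]
    have h1 := few_orders hp (a := 1) (N := min N p) le_rfl (min_le_right _ _)
    have h2 : ((Finset.Icc 1 N).filter fun n => WilsonPrime n p).card =
        {n | 1 ≤ n ∧ n < 1 + min N p ∧ WilsonPrime n p}.ncard := by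
      rw [← Set.ncard_coe_finset]
      congr 1
      ext n
      simp only [Finset.coe_filter, Finset.mem_Icc, Set.mem_ofPred_eq]
      constructor
      · rintro ⟨⟨h3, h4⟩, h5⟩
        exact ⟨h3, by have := h5.2.1; omega, h5⟩
      · rintro ⟨h3, h4, h5⟩
        exact ⟨⟨h3, by omega⟩, h5⟩
    rw [h2]
    refine h1.trans ?_
    gcongr
    exact min_le_left _ _
  · have : (Finset.Icc 1 N).filter (fun n => WilsonPrime n p) = ∅ := by
      rw [Finset.filter_eq_empty_iff]
      intro n _ h
      exact hp h.1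
    rw [this, if_neg hp]
    simp

/-- (0) The Wilson primes of order one are the Wilson primes. (1) For `1 ≤ m < n` fewer than `n - m`
primes are Wilson primes of both orders. (2) If all but finitely many primes are Wilson primes of
order `m`, then for every other order there are only finitely many Wilson primes. (3) For all orders
but at most one there are infinitely many primes which are not Wilson primes of this order.
(4) The sum of the lower densities of the Wilson primes of order `n` over all `n ≥ 1` is at most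
one. (5) A prime `p` is a Wilson prime of at most `3 N ^ (2 / 3)` of any `N ≤ p` consecutive orders.
(6) For all `N` and `x` the average over the orders `n ≤ N` of the number of the Wilson primes of
order `n` up to `x` is at most `3 N ^ (- 1 / 3) π(x)`. -/
theorem result :
    (∀ p : ℕ, WilsonPrime 1 p ↔ p.Prime ∧ p ^ 2 ∣ (p - 1)! + 1) ∧
    (∀ m n : ℕ, 1 ≤ m → m < n → {p | WilsonPrime m p ∧ WilsonPrime n p}.Finite ∧
      {p | WilsonPrime m p ∧ WilsonPrime n p}.ncard < n - m) ∧
    (∀ m n : ℕ, 1 ≤ m → 1 ≤ n → m ≠ n → {p : ℕ | p.Prime ∧ ¬ WilsonPrime m p}.Finite →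
      {p | WilsonPrime n p}.Finite) ∧
    (∀ m n : ℕ, 1 ≤ m → 1 ≤ n → {p : ℕ | p.Prime ∧ ¬ WilsonPrime m p}.Finite →
      {p : ℕ | p.Prime ∧ ¬ WilsonPrime n p}.Finite → m = n) ∧
    (∀ n : ℕ, 0 ≤ lowerDensity n) ∧
    (∀ F : Finset ℕ, (∀ n ∈ F, 1 ≤ n) → ∑ n ∈ F, lowerDensity n ≤ 1) ∧
    (∀ p a N : ℕ, p.Prime → 1 ≤ a → N ≤ p →
      ({n | a ≤ n ∧ n < a + N ∧ WilsonPrime n p}.ncard : ℝ) ≤ 3 * (N : ℝ) ^ ((2 : ℝ) / 3)) ∧
    (∀ N x : ℕ, (∑ n ∈ Finset.Icc 1 N, count n x : ℝ) ≤
      3 * (N : ℝ) ^ ((2 : ℝ) / 3) * Nat.primeCounting x) := by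
  have key : ∀ m n : ℕ, 1 ≤ m → 1 ≤ n → m ≠ n → {p | WilsonPrime m p ∧ WilsonPrime n p}.Finite := by
    intro m n hm hn hmn
    rcases lt_or_gt_of_ne hmn with h | h
    · exact (two_orders hm h).1
    · exact (two_orders hn h).1.subset fun p hp => ⟨hp.2, hp.1⟩
  have key2 : ∀ m n : ℕ, 1 ≤ m → 1 ≤ n → m ≠ n → {p : ℕ | p.Prime ∧ ¬ WilsonPrime m p}.Finite →
      {p | WilsonPrime n p}.Finite := by
    intro m n hm hn hmn h
    refine (h.union (key m n hm hn hmn)).subset fun p hp => ?_
    by_cases hp2 : WilsonPrime m p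
    · exact Or.inr ⟨hp2, hp⟩
    · exact Or.inl ⟨hp.1, hp2⟩
  refine ⟨wilsonPrime_one, fun m n => two_orders, key2, fun m n hm hn h1 h2 => ?_, fun n => ?_,
    sum_density, fun p a N hp ha hN => few_orders hp ha hN, average⟩
  · by_contra hne
    have h3 := key2 m n hm hn hne h1
    have h4 : {p : ℕ | p.Prime}.Finite := (h2.union h3).subset fun p hp => by
      by_cases hp2 : WilsonPrime n p
      · exact Or.inr hp2
      · exact Or.inl ⟨hp, hp2⟩
    exact Nat.infinite_setOfPred_prime h4
  · refine le_liminf_of_le ?_ (Eventually.of_forall fun x => by positivity)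
    refine isCoboundedUnder_ge_of_le atTop (x := (1 : ℝ)) fun x => ?_
    exact div_le_one_of_le₀ (by exact_mod_cast count_le n x) (Nat.cast_nonneg _)

end Pool.Agent.Results.MP_de5eaa_nt.OrdersAlmostDisjoint
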